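import Pool.Agent.H295R3.NA.StmtsB
import Pool.Agent.Helper923.PPS.BT

set_option autoImplicit false

open Finset

namespace Pool.Agent.H104R3.NA

open Pool.Agent.H295R3.NA

/-- distance of naturals, as exponent -/
theorem geo_dist (r : ℝ) (hr0 : 0 ≤ r) (hr1 : r < 1) (m M : ℕ) :
    ∑ k ∈ range M, r ^ ((k - m) + (m - k)) ≤ 2 / (1 - r) := by
  have hg : ∀ n : ℕ, ∑ i ∈ range n, r ^ i ≤ 1 / (1 - r) := by
    intro n
    rw [le_div_iff₀ (by linarith), mul_comm]
    have h := mul_neg_geom_sum r n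
    rw [h]
    have := pow_nonneg hr0 n
    linarith
  have h1 : ∑ k ∈ range M, r ^ ((k - m) + (m - k)) ≤
      ∑ k ∈ range ((m + 1) + M), r ^ ((k - m) + (m - k)) := by
    apply Finset.sum_le_sum_of_subset_of_nonneg
    · intro k hk
      rw [Finset.mem_range] at hk ⊢
      omega
    · intro i _ _
      positivity
  rw [Finset.sum_range_add] at h1
  have h2 : ∑ k ∈ range (m + 1), r ^ ((k - m) + (m - k)) = ∑ k ∈ range (m + 1), r ^ k := by
    rw [← Finset.sum_range_reflect (fun k => r ^ k)]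
    apply Finset.sum_congr rfl
    intro k hk
    rw [Finset.mem_range] at hk
    congr 1
    omega
  have h3 : ∑ x ∈ range M, r ^ ((m + 1 + x - m) + (m - (m + 1 + x))) ≤ ∑ x ∈ range M, r ^ x := by
    apply Finset.sum_le_sum
    intro x _
    apply pow_le_pow_of_le_one hr0 hr1.le
    omega
  rw [h2] at h1
  have h4 := hg (m + 1)
  have h5 := hg M
  have h6 : 2 / (1 - r) = 1 / (1 - r) + 1 / (1 - r) := by ring
  rw [h6]
  linarith

/-- splitting into windows -/
theorem windows (f : ℕ → ℝ) (N M : ℕ) :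
    ∑ l ∈ range (M * N), f l = ∑ k ∈ range M, ∑ i ∈ range N, f (k * N + i) := by
  induction M with
  | zero => simp
  | succ M ih => rw [Finset.sum_range_succ, ← ih, Nat.succ_mul, Finset.sum_range_add]

/-- the exponent -/
theorem phi_lower (t y N : ℝ) (ht : 0 < t) (hy : 0 < y) (hN : 1 ≤ N) (hyN : y ≤ N ^ 2) :
    |t - y| / (2 * N) - 1 / 8 ≤ (t - y) ^ 2 / t := by
  have hN0 : 0 < N := by linarith
  rcases le_or_gt t (2 * y) with h | h
  · have h1 : (t - y) ^ 2 / (2 * N ^ 2) ≤ (t - y) ^ 2 / t := by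
      apply div_le_div_of_nonneg_left (sq_nonneg _) ht
      linarith
    have h2 : |t - y| / (2 * N) - 1 / 8 ≤ (t - y) ^ 2 / (2 * N ^ 2) := by
      rw [← sq_abs (t - y)]
      have h3 : 0 ≤ (|t - y| / N - 1 / 2) ^ 2 := sq_nonneg _
      have h4 : |t - y| ^ 2 / (2 * N ^ 2) = (|t - y| / N) ^ 2 / 2 := by
        field_simp
      have h5 : |t - y| / (2 * N) = (|t - y| / N) / 2 := by
        field_simp
      rw [h4, h5]
      nlinarith
    linarith
  · have h0 : |t - y| = t - y := abs_of_pos (by linarith)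
    rw [h0]
    have h1 : (t - y) / 2 ≤ (t - y) ^ 2 / t := by
      rw [le_div_iff₀ ht]
      nlinarith
    have h2 : (t - y) / (2 * N) ≤ (t - y) / 2 := by
      apply div_le_div_of_nonneg_left (by linarith) (by norm_num)
      linarith
    linarith

/-- weight of a prime -/
noncomputable def ww (y : ℝ) (l : ℕ) : ℝ :=
  Real.exp (-(Real.log 2 * (((l : ℝ) - 1 - y) ^ 2 / ((l : ℝ) - 1))))

theorem ww_window (y : ℝ) (N m k i : ℕ) (hy : 0 < y) (hN : 1 ≤ N) (hyN : y ≤ (N : ℝ) ^ 2)
    (hm1 : (m : ℝ) * N ≤ y) (hm2 : y < ((m : ℝ) + 1) * N) (hi : i < N) (hl : 2 ≤ k * N + i) :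
    ww y (k * N + i) ≤ 4 * (Real.exp (-(Real.log 2 / 2))) ^ ((k - m) + (m - k)) := by
  have hN1 : (1 : ℝ) ≤ N := by exact_mod_cast hN
  have hN0 : (0 : ℝ) < N := by linarith
  have hlog : 0 < Real.log 2 := Real.log_pos (by norm_num)
  have hl' : (2 : ℝ) ≤ ((k * N + i : ℕ) : ℝ) := by exact_mod_cast hl
  have hi' : (i : ℝ) < N := by exact_mod_cast hi
  have hi0 : (0 : ℝ) ≤ i := by positivity
  have h1 := phi_lower (((k * N + i : ℕ) : ℝ) - 1) y N (by linarith) hy hN1 hyN
  have hcast : ((k * N + i : ℕ) : ℝ) = (k : ℝ) * N + i := by push_cast; ring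
  have hd : (((k - m) + (m - k) : ℕ) : ℝ) * N - 2 * N ≤ |((k * N + i : ℕ) : ℝ) - 1 - y| := by
    rw [hcast]
    rcases le_total m k with h | h
    · have e : (((k - m) + (m - k) : ℕ) : ℝ) = (k : ℝ) - m := by
        rw [Nat.sub_eq_zero_of_le h, Nat.add_zero, Nat.cast_sub h]
      rw [e]
      have := le_abs_self ((k : ℝ) * N + i - 1 - y)
      nlinarith
    · have e : (((k - m) + (m - k) : ℕ) : ℝ) = (m : ℝ) - k := by
        rw [Nat.sub_eq_zero_of_le h, Nat.zero_add, Nat.cast_sub h]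
      rw [e]
      have := neg_abs_le ((k : ℝ) * N + i - 1 - y)
      nlinarith
  have h2 : (((k - m) + (m - k) : ℕ) : ℝ) / 2 - 9 / 8 ≤
      (((k * N + i : ℕ) : ℝ) - 1 - y) ^ 2 / (((k * N + i : ℕ) : ℝ) - 1) := by
    have h3 : (((k - m) + (m - k) : ℕ) : ℝ) / 2 - 1 ≤
        |((k * N + i : ℕ) : ℝ) - 1 - y| / (2 * N) := by
      rw [le_div_iff₀ (by positivity)]
      linarith
    linarith
  have h4 : ww y (k * N + i) ≤ Real.exp (2 * Real.log 2 +
      (((k - m) + (m - k) : ℕ) : ℝ) * (-(Real.log 2 / 2))) := by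
    unfold ww
    apply Real.exp_le_exp.mpr
    have := mul_le_mul_of_nonneg_left h2 hlog.le
    nlinarith
  have h5 : Real.exp (2 * Real.log 2 +
      (((k - m) + (m - k) : ℕ) : ℝ) * (-(Real.log 2 / 2))) =
      4 * (Real.exp (-(Real.log 2 / 2))) ^ ((k - m) + (m - k)) := by
    rw [Real.exp_add, Real.exp_nat_mul]
    congr 1
    have : Real.exp (2 * Real.log 2) = Real.exp (Real.log 2) * Real.exp (Real.log 2) := by
      rw [← Real.exp_add]; ring_nf
    rw [this, Real.exp_log (by norm_num)]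
    norm_num
  rw [h5] at h4
  exact h4

theorem K_bound : ∃ D : ℝ, 0 < D ∧ ∀ y : ℝ, 4 ≤ y → ∀ s : Finset ℕ, (∀ l ∈ s, l.Prime) →
    ∑ l ∈ s, ww y l ≤ D * (Real.sqrt y / Real.log y) := by
  obtain ⟨C, hC1, hC⟩ := Pool.Agent.Helper923.PPS.brun_titchmarsh
  have hlog : 0 < Real.log 2 := Real.log_pos (by norm_num)
  set r : ℝ := Real.exp (-(Real.log 2 / 2)) with hr
  have hr0 : 0 < r := Real.exp_pos _
  have hr1 : r < 1 := by
    rw [hr, Real.exp_lt_one_iff]
    linarith
  have h1r : 0 < 1 - r := by linarith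
  refine ⟨4 * (4 * C) * (2 / (1 - r)), by positivity, ?_⟩
  intro y hy s hs
  have hy0 : 0 < y := by linarith
  have hsq2 : 2 ≤ Real.sqrt y := by
    apply Real.le_sqrt_of_sq_le
    norm_num
    exact hy
  set N : ℕ := ⌈Real.sqrt y⌉₊ with hN
  have hNle : Real.sqrt y ≤ N := Nat.le_ceil _
  have hNlt : (N : ℝ) < Real.sqrt y + 1 := Nat.ceil_lt_add_one (by positivity)
  have hN2 : (2 : ℝ) ≤ N := by linarith
  have hN2' : 2 ≤ N := by exact_mod_cast hN2
  have hN0 : (0 : ℝ) < N := by linarith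
  have hyN : y ≤ (N : ℝ) ^ 2 := by
    have := Real.sq_sqrt hy0.le
    nlinarith
  set m : ℕ := ⌊y / N⌋₊ with hm
  have hm1 : (m : ℝ) * N ≤ y := by
    have := Nat.floor_le (show 0 ≤ y / N by positivity)
    rwa [← le_div_iff₀ hN0]
  have hm2 : y < ((m : ℝ) + 1) * N := by
    have := Nat.lt_floor_add_one (y / N)
    rwa [← div_lt_iff₀ hN0]
  have hlogy : 0 < Real.log y := Real.log_pos (by linarith)
  have hlogN : Real.log y / 2 ≤ Real.log N := by
    rw [← Real.log_sqrt hy0.le]
    exact Real.log_le_log (by positivity) hNle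
  have hBT : C * N / Real.log N ≤ 4 * C * (Real.sqrt y / Real.log y) := by
    have h1 : C * N / Real.log N ≤ C * N / (Real.log y / 2) := by
      apply div_le_div_of_nonneg_left (by positivity) (by positivity) hlogN
    have h2 : C * N / (Real.log y / 2) ≤ C * (2 * Real.sqrt y) / (Real.log y / 2) := by
      gcongr
      linarith
    have h3 : C * (2 * Real.sqrt y) / (Real.log y / 2) = 4 * C * (Real.sqrt y / Real.log y) := by
      field_simp
      ring
    linarith
  set M : ℕ := s.sup id + 1 with hM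
  have hw0 : ∀ l, 0 ≤ ww y l := fun l => (Real.exp_pos _).le
  have e1 : ∑ l ∈ s, ww y l ≤ ∑ l ∈ range (M * N), if l.Prime then ww y l else 0 := by
    have : ∑ l ∈ s, ww y l = ∑ l ∈ s, if l.Prime then ww y l else 0 := by
      apply Finset.sum_congr rfl
      intro l hl
      rw [if_pos (hs l hl)]
    rw [this]
    apply Finset.sum_le_sum_of_subset_of_nonneg
    · intro l hl
      rw [Finset.mem_range]
      have h1 : l ≤ s.sup id := Finset.le_sup (f := id) hl
      have h2 : M ≤ M * N := Nat.le_mul_of_pos_right _ (by omega)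
      omega
    · intro i _ _
      split_ifs
      · exact hw0 i
      · exact le_rfl
  have e2 : ∀ k ∈ range M, (∑ i ∈ range N, if (k * N + i).Prime then ww y (k * N + i) else 0) ≤
      4 * r ^ ((k - m) + (m - k)) * (4 * C * (Real.sqrt y / Real.log y)) := by
    intro k _
    have h1 : (∑ i ∈ range N, if (k * N + i).Prime then ww y (k * N + i) else 0) ≤
        ∑ i ∈ range N, if (k * N + i).Prime then 4 * r ^ ((k - m) + (m - k)) else 0 := by
      apply Finset.sum_le_sum
      intro i hi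
      split_ifs with hp
      · exact ww_window y N m k i hy0 (by omega) hyN hm1 hm2 (Finset.mem_range.mp hi) hp.two_le
      · exact le_rfl
    have h2 : (∑ i ∈ range N, if (k * N + i).Prime then 4 * r ^ ((k - m) + (m - k)) else 0) =
        4 * r ^ ((k - m) + (m - k)) * (((range N).filter (fun i => (k * N + i * 1).Prime)).card : ℝ) := by
      rw [← Finset.sum_filter, Finset.sum_const, nsmul_eq_mul]
      simp only [mul_one]
      ring
    have h3 := hC (k * N) 1 N hN2' (Or.inl rfl)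
    have h4 : 0 ≤ 4 * r ^ ((k - m) + (m - k)) := by positivity
    calc _ ≤ _ := h1
      _ = _ := h2
      _ ≤ 4 * r ^ ((k - m) + (m - k)) * (C * N / Real.log N) := mul_le_mul_of_nonneg_left h3 h4
      _ ≤ _ := mul_le_mul_of_nonneg_left hBT h4
  have hq0 : 0 ≤ Real.sqrt y / Real.log y := by positivity
  have e3 := geo_dist r hr0.le hr1 m M
  calc ∑ l ∈ s, ww y l ≤ _ := e1
    _ = ∑ k ∈ range M, ∑ i ∈ range N, if (k * N + i).Prime then ww y (k * N + i) else 0 :=
        windows _ N M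
    _ ≤ ∑ k ∈ range M, 4 * r ^ ((k - m) + (m - k)) * (4 * C * (Real.sqrt y / Real.log y)) :=
        Finset.sum_le_sum e2
    _ = (∑ k ∈ range M, r ^ ((k - m) + (m - k))) * (4 * (4 * C * (Real.sqrt y / Real.log y))) := by
        rw [Finset.sum_mul]
        apply Finset.sum_congr rfl
        intro k _
        ring
    _ ≤ (2 / (1 - r)) * (4 * (4 * C * (Real.sqrt y / Real.log y))) := by
        apply mul_le_mul_of_nonneg_right e3
        positivity
    _ = _ := by ring

theorem term_eq (L y : ℝ) (hL : L = y ^ 2 * Real.log 2) (l : ℕ) (hl : 2 ≤ l) :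
    (1 / 2 : ℝ) ^ l * Real.exp (-L / ((l : ℝ) - 1)) =
      (1 / 2 * Real.exp (-2 * (y * Real.log 2))) * ww y l := by
  have hl' : (2 : ℝ) ≤ l := by exact_mod_cast hl
  have hl1 : (l : ℝ) - 1 ≠ 0 := by
    have : (0 : ℝ) < (l : ℝ) - 1 := by linarith
    exact this.ne'
  have h2 : (1 / 2 : ℝ) = Real.exp (-Real.log 2) := by
    rw [Real.exp_neg, Real.exp_log (by norm_num)]
    norm_num
  unfold ww
  rw [h2, ← Real.exp_nat_mul, ← Real.exp_add, ← Real.exp_add, ← Real.exp_add, hL]
  congr 1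
  field_simp
  ring

theorem taskUB : TaskUB := by
  obtain ⟨D, hD, hK⟩ := K_bound
  refine ⟨2 * D, 16, by positivity, ?_⟩
  intro L hL
  have hlog : 0 < Real.log 2 := Real.log_pos (by norm_num)
  have hlog1 : Real.log 2 < 1 := by
    have := Real.log_two_lt_d9
    linarith
  have hlog2 : 1 / 2 < Real.log 2 := by
    have := Real.log_two_gt_d9
    linarith
  have hL0 : 0 < L := by linarith
  set y : ℝ := Real.sqrt (L / Real.log 2) with hy
  have hyy : y ^ 2 = L / Real.log 2 := Real.sq_sqrt (by positivity)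
  have hLy : L = y ^ 2 * Real.log 2 := by
    rw [hyy]
    field_simp
  have hy0 : 0 ≤ y := Real.sqrt_nonneg _
  have hy4 : 4 ≤ y := by
    apply Real.le_sqrt_of_sq_le
    rw [le_div_iff₀ hlog]
    nlinarith
  have hypos : 0 < y := by linarith
  have hsq : Real.sqrt (L * Real.log 2) = y * Real.log 2 := by
    rw [hLy, show y ^ 2 * Real.log 2 * Real.log 2 = (y * Real.log 2) ^ 2 by ring]
    exact Real.sqrt_sq (by positivity)
  -- the sum
  have hsum : MMr L ≤ (1 / 2 * Real.exp (-2 * (y * Real.log 2))) *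
      (D * (Real.sqrt y / Real.log y)) := by
    unfold MMr
    have hnn : 0 ≤ (1 / 2 * Real.exp (-2 * (y * Real.log 2))) := by positivity
    have hlogy : 0 < Real.log y := Real.log_pos (by linarith)
    apply tsum_le_of_sum_le'
    · positivity
    · intro s
      have h1 : ∑ l ∈ s, (1 / 2 : ℝ) ^ (l : ℕ) * Real.exp (-L / (((l : ℕ) : ℝ) - 1)) =
          (1 / 2 * Real.exp (-2 * (y * Real.log 2))) * ∑ l ∈ s, ww y (l : ℕ) := by
        rw [Finset.mul_sum]
        apply Finset.sum_congr rfl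
        intro l _
        exact term_eq L y hLy l l.2.two_le
      rw [h1]
      apply mul_le_mul_of_nonneg_left _ hnn
      have h2 := hK y hy4 (s.map ⟨fun l : Nat.Primes => (l : ℕ), Subtype.coe_injective⟩) (by
        intro l hl
        rw [Finset.mem_map] at hl
        obtain ⟨a, _, rfl⟩ := hl
        exact a.2)
      rw [Finset.sum_map] at h2
      exact h2
  -- comparison of the elementary functions
  have hq : Real.sqrt y ≤ 2 * L ^ (1 / 4 : ℝ) := by
    have h0 : 0 ≤ L ^ (1 / 4 : ℝ) := by positivity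
    have h4 : (L ^ (1 / 4 : ℝ)) ^ 4 = L := by
      rw [← Real.rpow_natCast, ← Real.rpow_mul hL0.le]
      norm_num
    have h5 : Real.sqrt y ^ 4 ≤ (2 * L ^ (1 / 4 : ℝ)) ^ 4 := by
      have e1 : Real.sqrt y ^ 4 = (Real.sqrt y ^ 2) ^ 2 := by ring
      rw [e1, Real.sq_sqrt hy0, hyy, mul_pow, h4, div_le_iff₀ hlog]
      nlinarith
    exact le_of_pow_le_pow_left₀ (by norm_num) (by positivity) h5
  have hlogL : Real.log L ≤ 2 * Real.log y := by
    have h1 : Real.log (y ^ 2) = 2 * Real.log y := by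
      rw [Real.log_pow]
      norm_num
    rw [← h1, hyy]
    apply Real.log_le_log hL0
    rw [le_div_iff₀ hlog]
    nlinarith
  have hlogL0 : 0 < Real.log L := Real.log_pos (by linarith)
  have hlogy : 0 < Real.log y := Real.log_pos (by linarith)
  have hfrac : Real.sqrt y / Real.log y ≤ 4 * (L ^ (1 / 4 : ℝ) / Real.log L) := by
    rw [div_le_iff₀ hlogy]
    have h1 : 4 * (L ^ (1 / 4 : ℝ) / Real.log L) * Real.log y =
        (2 * L ^ (1 / 4 : ℝ)) * ((2 * Real.log y) / Real.log L) := by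
      ring
    rw [h1]
    have h2 : 1 ≤ (2 * Real.log y) / Real.log L := by
      rw [le_div_iff₀ hlogL0]
      linarith
    have h3 : 0 ≤ 2 * L ^ (1 / 4 : ℝ) := by positivity
    nlinarith
  have hgg : L ^ (1 / 4 : ℝ) / Real.log L * Real.exp (-2 * (y * Real.log 2)) ≤ gg L := by
    unfold gg
    rw [hsq]
    have h34 : (Real.log 2) ^ (3 / 4 : ℝ) ≤ 1 := Real.rpow_le_one hlog.le hlog1.le (by norm_num)
    have h34' : 0 < (Real.log 2) ^ (3 / 4 : ℝ) := by positivity
    have hpi : 1 ≤ Real.sqrt Real.pi := by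
      rw [Real.one_le_sqrt]
      have := Real.pi_gt_three
      linarith
    have e : Real.sqrt Real.pi * L ^ (1 / 4 : ℝ) * Real.exp (-2 * (y * Real.log 2)) /
        ((Real.log 2) ^ (3 / 4 : ℝ) * Real.log L) =
        (L ^ (1 / 4 : ℝ) / Real.log L * Real.exp (-2 * (y * Real.log 2))) *
          (Real.sqrt Real.pi / (Real.log 2) ^ (3 / 4 : ℝ)) := by
      field_simp
    rw [e]
    have h5 : 1 ≤ Real.sqrt Real.pi / (Real.log 2) ^ (3 / 4 : ℝ) := by
      rw [le_div_iff₀ h34']
      linarith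
    have h6 : 0 ≤ L ^ (1 / 4 : ℝ) / Real.log L * Real.exp (-2 * (y * Real.log 2)) := by positivity
    nlinarith
  calc MMr L ≤ _ := hsum
    _ ≤ (1 / 2 * Real.exp (-2 * (y * Real.log 2))) *
      (D * (4 * (L ^ (1 / 4 : ℝ) / Real.log L))) := by
        gcongr
    _ = 2 * D * (L ^ (1 / 4 : ℝ) / Real.log L * Real.exp (-2 * (y * Real.log 2))) := by ring
    _ ≤ 2 * D * gg L := by
        apply mul_le_mul_of_nonneg_left hgg
        positivity

end Pool.Agent.H104R3.NA
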